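import Mathlib
import Pool.Agent.H.MP_59b15d_al.h76m.Defs

set_option autoImplicit false

namespace Pool.MP_59b15d_al.Sym

open Pool.MP_59b15d_al.H76

/-- The number of homomorphisms to a commutative group. -/
theorem card_hom {p : ℕ} {G : Type*} [Group G] {a b : Fin p → G} (h : StdGen a b) (M : Type*)
    [CommGroup M] [Finite M] : Nat.card (G →* M) = Nat.card M ^ (2 * p) := by
  classical
  obtain ⟨e, -⟩ := h
  set rels : Set (FreeGroup (Fin p ⊕ Fin p)) := {(List.ofFn (fun i : Fin p =>
            FreeGroup.of (Sum.inl i : Fin p ⊕ Fin p) *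
            FreeGroup.of (Sum.inr i : Fin p ⊕ Fin p) *
            (FreeGroup.of (Sum.inl i : Fin p ⊕ Fin p))⁻¹ *
            (FreeGroup.of (Sum.inr i : Fin p ⊕ Fin p))⁻¹)).prod} with hrels
  have hr : ∀ v : Fin p ⊕ Fin p → M, ∀ r ∈ rels, FreeGroup.lift v r = 1 := by
    intro v r hr
    rw [hrels, Set.mem_singleton_iff] at hr
    rw [hr, map_list_prod, List.map_ofFn]
    refine List.prod_eq_one fun x hx => ?_
    rw [List.mem_ofFn] at hx
    obtain ⟨i, rfl⟩ := hx
    simp only [Function.comp_apply, map_mul, map_inv]
    rw [mul_comm (FreeGroup.lift v (FreeGroup.of (Sum.inl i)))]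
    group
  have E1 : (PresentedGroup rels →* M) ≃ (Fin p ⊕ Fin p → M) :=
    { toFun := fun f x => f (PresentedGroup.of x)
      invFun := fun v => PresentedGroup.toGroup (hr v)
      left_inv := fun f => by
        refine PresentedGroup.ext fun x => ?_
        rw [PresentedGroup.toGroup.of]
      right_inv := fun v => by
        ext x
        exact PresentedGroup.toGroup.of (hr v) }
  have E2 : (G →* M) ≃ (PresentedGroup rels →* M) :=
    { toFun := fun f => f.comp e.toMonoidHom
      invFun := fun f => f.comp e.symm.toMonoidHom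
      left_inv := fun f => by
        ext x
        simp
      right_inv := fun f => by
        ext x
        simp }
  rw [Nat.card_congr (E2.trans E1), Nat.card_fun, Nat.card_eq_fintype_card (α := Fin p ⊕ Fin p)]
  simp [two_mul]

theorem genus_unique {p p' : ℕ} {G : Type*} [Group G] {a b : Fin p → G} {a' b' : Fin p' → G}
    (h : StdGen a b) (h' : StdGen a' b') : p = p' := by
  have h1 := card_hom h (Multiplicative (ZMod 2))
  rw [card_hom h' (Multiplicative (ZMod 2))] at h1
  have h2 : Nat.card (Multiplicative (ZMod 2)) = 2 := by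
    rw [Nat.card_congr Multiplicative.toAdd]
    exact Nat.card_zmod 2
  rw [h2] at h1
  have h3 := Nat.pow_right_injective le_rfl h1
  omega

end Pool.MP_59b15d_al.Sym
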