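import Mathlib
import Pool.Agent.H.MP_59b15d_al.sym.Defs

set_option autoImplicit false

namespace Pool.MP_59b15d_al.Sym

variable {N : ℕ}

/-- The hypotheses on `K`: `F / K` is a finite group where `x_j` has order `e_j`, and `x_n` is central
of order `m`. -/
structure CK (e : Fin N → ℕ) (m : ℕ) (K : Subgroup (FF N)) : Prop where
  nor : K.Normal
  fin : K.FiniteIndex
  h1 : ∀ j, FreeGroup.of j ^ e j ∈ K
  h2 : xn N ^ m ∈ K
  o1 : ∀ j (k : ℕ), FreeGroup.of j ^ k ∈ K → e j ∣ k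
  o2 : ∀ k : ℕ, xn N ^ k ∈ K → m ∣ k
  cen : ∀ z, z * xn N * z⁻¹ * (xn N)⁻¹ ∈ K
  big : 8 ≤ K.index

variable {e : Fin N → ℕ} {m : ℕ} {K D : Subgroup (FF N)}

/-- `x_n` is central modulo `K`, powers. -/
theorem CK.cenz (h : CK e m K) (g : FF N) (a : ℤ) : g * xn N ^ a * g⁻¹ * (xn N ^ a)⁻¹ ∈ K := by
  have := h.nor
  have h0 : ∀ z : FF N, z ∈ K ↔ QuotientGroup.mk' K z = 1 := fun z => by
    rw [← MonoidHom.mem_ker, QuotientGroup.ker_mk']
  have h1 := (h0 _).1 (h.cen g)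
  rw [h0]
  simp only [map_mul, map_inv, map_zpow] at h1 ⊢
  have h2 : Commute (QuotientGroup.mk' K g) (QuotientGroup.mk' K (xn N)) := by
    rw [mul_inv_eq_one, mul_inv_eq_iff_eq_mul] at h1
    exact h1
  have h3 := h2.zpow_right a
  rw [mul_inv_eq_one, mul_inv_eq_iff_eq_mul]
  exact h3

theorem conj_zp (g x : FF N) (a : ℤ) : (g * x * g⁻¹) ^ a = g * x ^ a * g⁻¹ := by
  rw [← MulAut.conj_apply, ← map_zpow, MulAut.conj_apply]

/-- `D = K ⟨x_n⟩`. -/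
def IsD (K D : Subgroup (FF N)) : Prop := ∀ z, z ∈ D ↔ ∃ a : ℤ, z * xn N ^ a ∈ K

theorem exists_D (h : CK e m K) : ∃ D, IsD K D := by
  have := h.nor
  refine ⟨(Subgroup.zpowers (QuotientGroup.mk' K (xn N))).comap (QuotientGroup.mk' K), fun z => ?_⟩
  rw [Subgroup.mem_comap, Subgroup.mem_zpowers_iff]
  have h0 : ∀ z : FF N, z ∈ K ↔ QuotientGroup.mk' K z = 1 := fun z => by
    rw [← MonoidHom.mem_ker, QuotientGroup.ker_mk']
  constructor
  · rintro ⟨a, ha⟩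
    refine ⟨-a, ?_⟩
    rw [h0, map_mul, map_zpow, ← ha, ← zpow_add]
    simp
  · rintro ⟨a, ha⟩
    refine ⟨-a, ?_⟩
    rw [h0, map_mul, map_zpow] at ha
    rw [zpow_neg, eq_comm]
    exact eq_inv_of_mul_eq_one_left ha

theorem IsD.memg (h : CK e m K) (hD : IsD K D) (g z : FF N) :
    z ∈ D ↔ ∃ a : ℤ, z * (g * xn N * g⁻¹) ^ a ∈ K := by
  have := h.nor
  rw [hD]
  refine exists_congr fun a => ?_
  rw [conj_zp]
  have h1 := h.cenz g a
  constructor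
  · intro h2
    have h3 := K.mul_mem (h.nor.conj_mem _ h1 z) h2
    have h4 : z * (g * xn N ^ a * g⁻¹ * (xn N ^ a)⁻¹) * z⁻¹ * (z * xn N ^ a) =
        z * (g * xn N ^ a * g⁻¹) := by group
    rwa [h4] at h3
  · intro h2
    have h3 := K.mul_mem (K.inv_mem (h.nor.conj_mem _ h1 z)) h2
    have h4 : (z * (g * xn N ^ a * g⁻¹ * (xn N ^ a)⁻¹) * z⁻¹)⁻¹ * (z * (g * xn N ^ a * g⁻¹)) =
        (z * xn N ^ a) := by group
    rwa [h4] at h3

theorem IsD.le (hD : IsD K D) : K ≤ D := fun z hz => (hD z).2 ⟨0, by simpa using hz⟩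

theorem IsD.xn (hD : IsD K D) : xn N ∈ D := (hD _).2 ⟨-1, by simp⟩

theorem IsD.nor (h : CK e m K) (hD : IsD K D) : D.Normal := by
  have := h.nor
  refine ⟨fun z hz g => ?_⟩
  obtain ⟨a, ha⟩ := (hD z).1 hz
  rw [hD.memg h g]
  refine ⟨a, ?_⟩
  rw [conj_zp]
  have h2 : g * z * g⁻¹ * (g * Sym.xn N ^ a * g⁻¹) = g * (z * Sym.xn N ^ a) * g⁻¹ := by group
  rw [h2]
  exact h.nor.conj_mem _ ha g

theorem IsD.fin (h : CK e m K) (hD : IsD K D) : D.FiniteIndex := by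
  have := h.fin
  exact Subgroup.finiteIndex_of_le hD.le

theorem IsD.conj (h : CK e m K) (hD : IsD K D) (g : FF N) : g * Sym.xn N * g⁻¹ ∈ D :=
  (hD.nor h).conj_mem _ hD.xn g

theorem IsD.cm (h : CK e m K) (g : FF N) : (g * Sym.xn N * g⁻¹) ^ m ∈ K := by
  have h2 : (g * Sym.xn N * g⁻¹) ^ m = g * Sym.xn N ^ m * g⁻¹ := by
    rw [← MulAut.conj_apply, ← map_pow, MulAut.conj_apply]
  rw [h2]
  exact h.nor.conj_mem _ h.h2 g

/-- Double cosets. -/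
theorem IsD.dc (h : CK e m K) (hD : IsD K D) (z g : FF N) :
    (∃ a : ℤ, z * Sym.xn N ^ a * g⁻¹ ∈ K) ↔ g⁻¹ * z ∈ D := by
  rw [hD]
  refine exists_congr fun a => ?_
  constructor
  · intro h1
    have h2 := h.nor.conj_mem _ h1 g⁻¹
    have h3 : g⁻¹ * (z * Sym.xn N ^ a * g⁻¹) * g⁻¹⁻¹ = g⁻¹ * z * Sym.xn N ^ a := by group
    rwa [h3] at h2
  · intro h1
    have h2 := h.nor.conj_mem _ h1 g
    have h3 : g * (g⁻¹ * z * Sym.xn N ^ a) * g⁻¹ = z * Sym.xn N ^ a * g⁻¹ := by group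
    rwa [h3] at h2

/-- Representatives of the faces. -/
theorem exists_faces (h : CK e m K) (hD : IsD K D) : ∃ (r : ℕ) (g : Fin (r + 1) → FF N),
    g 0 = 1 ∧ (∀ z, ∃ i, (g i)⁻¹ * z ∈ D) ∧ ∀ i j, i ≠ j → (g i)⁻¹ * g j ∉ D := by
  classical
  have := hD.fin h
  have : Finite (FF N ⧸ D) := Subgroup.finite_quotient_of_finiteIndex
  obtain ⟨n, ⟨E⟩⟩ := Finite.exists_equiv_fin (FF N ⧸ D)
  have hn : n ≠ 0 := by
    rintro rfl
    exact (E (QuotientGroup.mk 1)).elim0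
  obtain ⟨r, rfl⟩ := Nat.exists_eq_succ_of_ne_zero hn
  set σ := E.trans (Equiv.swap (E (QuotientGroup.mk 1)) 0) with hσ
  have h0 : σ (QuotientGroup.mk 1) = 0 := by simp [hσ]
  set g : Fin (r + 1) → FF N := fun i => if i = 0 then 1 else Quotient.out (σ.symm i) with hg
  have hg1 : ∀ i, (QuotientGroup.mk (g i) : FF N ⧸ D) = σ.symm i := by
    intro i
    by_cases hi : i = 0
    · have h9 : g i = 1 := by simp [hg, hi]
      rw [h9, hi, ← h0, Equiv.symm_apply_apply]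
    · simp only [hg, if_neg hi]
      exact QuotientGroup.out_eq' _
  refine ⟨r, g, by simp [hg], fun z => ⟨σ (QuotientGroup.mk z), ?_⟩, fun i j hij hm => hij ?_⟩
  · rw [← QuotientGroup.eq, hg1]
    simp
  · rw [← QuotientGroup.eq, hg1, hg1] at hm
    exact σ.symm.injective hm

end Pool.MP_59b15d_al.Sym
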