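import Mathlib
import Pool.Agent.H.MP_59b15d_al.h77s.Dk

set_option autoImplicit false

namespace Pool.MP_59b15d_al.Sym

variable {N : ℕ}

theorem descend {K G : Type*} [Group K] [Group G] (q : K →* G) (hq : Function.Surjective q)
    (α : MulAut K) (hα : ∀ z, q z = 1 ↔ q (α z) = 1) : ∃ φ : MulAut G, ∀ z, φ (q z) = q (α z) := by
  have h1 : q.ker ≤ (q.comp α.toMonoidHom).ker := fun z hz => (hα z).1 hz
  have h2 : q.ker ≤ (q.comp (α⁻¹ : MulAut K).toMonoidHom).ker := fun z hz => by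
    change q ((α⁻¹ : MulAut K) z) = 1
    rw [hα]
    have h3 : α ((α⁻¹ : MulAut K) z) = z := by
      change (α * α⁻¹) z = z
      rw [mul_inv_cancel]
      rfl
    rw [h3]
    exact hz
  have h3 : ∀ z, q.liftOfSurjective hq ⟨q.comp α.toMonoidHom, h1⟩ (q z) = q (α z) := fun z =>
    MonoidHom.liftOfRightInverse_comp_apply q (Function.surjInv hq) _
      ⟨q.comp α.toMonoidHom, h1⟩ z
  have h4 : ∀ z, q.liftOfSurjective hq ⟨q.comp (α⁻¹ : MulAut K).toMonoidHom, h2⟩ (q z) =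
      q ((α⁻¹ : MulAut K) z) := fun z =>
    MonoidHom.liftOfRightInverse_comp_apply q (Function.surjInv hq) _
      ⟨q.comp (α⁻¹ : MulAut K).toMonoidHom, h2⟩ z
  refine ⟨MonoidHom.toMulEquiv (q.liftOfSurjective hq ⟨q.comp α.toMonoidHom, h1⟩)
    (q.liftOfSurjective hq ⟨q.comp (α⁻¹ : MulAut K).toMonoidHom, h2⟩) ?_ ?_, h3⟩
  · ext y
    obtain ⟨z, rfl⟩ := hq y
    rw [MonoidHom.comp_apply, h3, h4, MonoidHom.id_apply]
    congr 1
    change (α⁻¹ * α) z = z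
    rw [inv_mul_cancel]
    rfl
  · ext y
    obtain ⟨z, rfl⟩ := hq y
    rw [MonoidHom.comp_apply, h4, h3, MonoidHom.id_apply]
    congr 1
    change (α * α⁻¹) z = z
    rw [mul_inv_cancel]
    rfl

theorem restr {G : Type*} [Group G] (K : Subgroup G) (f : MulAut G) (hf : ∀ z, f z ∈ K ↔ z ∈ K) :
    ∃ α : MulAut ↥K, ∀ z : ↥K, (α z : G) = f z := by
  have h1 : ∀ z, (f⁻¹ : MulAut G) z ∈ K ↔ z ∈ K := fun z => by
    rw [← hf]
    have h3 : f ((f⁻¹ : MulAut G) z) = z := by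
      change (f * f⁻¹) z = z
      rw [mul_inv_cancel]
      rfl
    rw [h3]
  refine ⟨MonoidHom.toMulEquiv ((f.toMonoidHom.comp K.subtype).codRestrict K fun z => (hf z).2 z.2)
    (((f⁻¹ : MulAut G).toMonoidHom.comp K.subtype).codRestrict K fun z => (h1 z).2 z.2) ?_ ?_,
    fun z => rfl⟩
  · ext z
    change (f⁻¹ * f) (z : G) = z
    rw [inv_mul_cancel]
    rfl
  · ext z
    change (f * f⁻¹) (z : G) = z
    rw [mul_inv_cancel]
    rfl

theorem CP_pow {f : MulAut (FF N)} (hf : f ∈ CP N) (j : Fin (N + 1)) (k : ℕ) :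
    ∃ w, f (per j ^ k) = w * per j ^ k * w⁻¹ := by
  obtain ⟨w, hw⟩ := hf j
  refine ⟨w, ?_⟩
  rw [map_pow, hw, ← MulAut.conj_apply, ← map_pow, MulAut.conj_apply]

theorem CP_gen {f : MulAut (FF N)} (hf : f ∈ CP N) (j : Fin N) (k : ℕ) :
    ∃ w, f (FreeGroup.of j ^ k) = w * FreeGroup.of j ^ k * w⁻¹ := by
  have h := CP_pow hf j.castSucc k
  rwa [per_castSucc] at h

theorem Rel'_map {f : MulAut (FF N)} (hf : f ∈ CP N) (e : Fin N → ℕ) {z : FF N}
    (hz : z ∈ Rel' e) : f z ∈ Rel' e := by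
  have h0 : (Rel' e).Normal := Subgroup.normalClosure_normal
  have h1 : Rel' e ≤ (Rel' e).comap f.toMonoidHom := by
    have h2 : ((Rel' e).comap f.toMonoidHom).Normal := h0.comap _
    refine Subgroup.normalClosure_le_normal ?_
    rintro _ ⟨j, rfl⟩
    obtain ⟨w, hw⟩ := CP_gen hf j (e j)
    change f (FreeGroup.of j ^ e j) ∈ Rel' e
    rw [hw]
    exact h0.conj_mem _ (Subgroup.subset_normalClosure
      (s := Set.range fun j => FreeGroup.of j ^ e j) ⟨j, rfl⟩) w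
  exact h1 hz

theorem Rel'_iff {f : MulAut (FF N)} (hf : f ∈ CP N) (e : Fin N → ℕ) (z : FF N) :
    z ∈ Rel' e ↔ f z ∈ Rel' e := by
  refine ⟨Rel'_map hf e, fun h => ?_⟩
  have h1 := Rel'_map ((CP N).inv_mem hf) e h
  have h3 : (f⁻¹ : MulAut (FF N)) (f z) = z := by
    change (f⁻¹ * f) z = z
    rw [inv_mul_cancel]
    rfl
  rwa [h3] at h1

theorem Rel_map {f : MulAut (FF N)} (hf : f ∈ CP N) (e : Fin (N + 1) → ℕ) {z : FF N}
    (hz : z ∈ Rel e) : f z ∈ Rel e := by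
  have h0 : (Rel e).Normal := Subgroup.normalClosure_normal
  have h1 : Rel e ≤ (Rel e).comap f.toMonoidHom := by
    have h2 : ((Rel e).comap f.toMonoidHom).Normal := h0.comap _
    refine Subgroup.normalClosure_le_normal ?_
    rintro _ ⟨j, rfl⟩
    obtain ⟨w, hw⟩ := CP_pow hf j (e j)
    change f (per j ^ e j) ∈ Rel e
    rw [hw]
    exact h0.conj_mem _ (Subgroup.subset_normalClosure
      (s := Set.range fun j => per j ^ e j) ⟨j, rfl⟩) w
  exact h1 hz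

theorem conj_mem_CP (w : FF N) : MulAut.conj w ∈ CP N := fun _ => ⟨w, rfl⟩

/-- The `D`-core. -/
theorem dcore {G : Type*} [Group G] (D Γ : Subgroup G) (hD : D.FiniteIndex) (hΓ : Γ.FiniteIndex) :
    ∃ Γ' : Subgroup G, Γ'.FiniteIndex ∧ ∀ z, z ∈ Γ' ↔ z ∈ D ∧ ∀ d ∈ D, d * z * d⁻¹ ∈ Γ := by
  refine ⟨((Γ.subgroupOf D).normalCore).map D.subtype, ?_, fun z => ?_⟩
  · rw [Subgroup.finiteIndex_iff, Subgroup.index_map_subtype]
    exact mul_ne_zero Subgroup.FiniteIndex.index_ne_zero hD.index_ne_zero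
  · constructor
    · rintro ⟨z, hz, rfl⟩
      refine ⟨z.2, fun d hd => ?_⟩
      exact hz ⟨d, hd⟩
    · rintro ⟨hz, h⟩
      exact ⟨⟨z, hz⟩, fun d => h d d.2, rfl⟩

end Pool.MP_59b15d_al.Sym
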