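import Mathlib
import Pool.Agent.H.MP_59b15d_al.sym.Mf
import Pool.Agent.H.MP_59b15d_al.sym.Glue
import Pool.Agent.H.MP_59b15d_al.h77s.Ax
import Pool.Agent.H.MP_59b15d_al.h76r.Sd

set_option autoImplicit false

namespace Pool.MP_59b15d_al.Sym

variable {N : ℕ} {e : Fin N → ℕ} {m : ℕ}

theorem Rel'_le {U : Subgroup (FF N)}
    (h : ∀ (j : Fin N) (h : FF N), h * FreeGroup.of j ^ e j * h⁻¹ ∈ U) : Rel' e ≤ U := by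
  rw [Rel', Subgroup.normalClosure, Subgroup.closure_le]
  intro z hz
  rw [Group.mem_conjugatesOfSet_iff] at hz
  obtain ⟨_, ⟨j, rfl⟩, hz⟩ := hz
  obtain ⟨c, rfl⟩ := isConj_iff.1 hz
  exact h j c

theorem Lev.rel_le {D U : Subgroup (FF N)} {T : Set (FF N)} (hU : Lev e m D T U) : Rel' e ≤ U :=
  Rel'_le hU.rel

/-- A level for the covering where `g₀` and the `g i` with `J i` are not killed. -/
theorem mg (hN : 4 ≤ N) (he : ∀ j, 2 ≤ e j) (hm : 2 ≤ m) {K D : Subgroup (FF N)}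
    (hC : CK e m K) (hD : IsD K D) (g₀ : FF N) (s : ℕ) (g : Fin s → FF N)
    (hg : ∀ z, g₀⁻¹ * z ∈ D ∨ ∃ i, (g i)⁻¹ * z ∈ D) (hg₀ : ∀ i, g₀⁻¹ * g i ∉ D)
    (hgg : ∀ i j, i ≠ j → (g j)⁻¹ * g i ∉ D) (J : Fin s → Prop) (U : Subgroup (FF N))
    (hU : Lev e m D {h | g₀⁻¹ * h ∉ D ∧ ∀ i, J i → (g i)⁻¹ * h ∉ D} U) :
    ∃ Γ : Subgroup (FF N), Lev e m D {h | ∀ i, J i → (g i)⁻¹ * h ∉ D} Γ ∧ Γ ≤ K ∧
      ∀ f ∈ CP N, (∀ z, f z ∈ K ↔ z ∈ K) → f (g₀ * xn N * g₀⁻¹) = g₀ * xn N * g₀⁻¹ →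
        (∀ i, J i → ∃ w ∈ Γ, f (g i * xn N * (g i)⁻¹) = w * (g i * xn N * (g i)⁻¹) * w⁻¹) →
        (∀ i, ∃ w ∈ D, f (g i * xn N * (g i)⁻¹) = w * (g i * xn N * (g i)⁻¹) * w⁻¹) →
        (∀ z ∈ D, f z * z⁻¹ ∈ Γ) → ∃ b : ℤ, InnOn U D f ((g₀ * xn N * g₀⁻¹) ^ b) := by
  classical
  have hKn := hC.nor
  have hKf := hC.fin
  have hKD := hD.le
  obtain ⟨p, Jm, hp, hJs, hJk, hJ0, hJi⟩ := mf hN e he K hC.nor hC.fin hC.h1 hC.o1 m hm hC.h2 hC.o2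
    hC.big g₀ s g
    (fun z => (hg z).imp (hD.dc hC z g₀).2 (fun ⟨i, hi⟩ => ⟨i, (hD.dc hC z (g i)).2 hi⟩))
    (fun i a ha => hg₀ i ((hD.dc hC (g i) g₀).1 ⟨a, ha⟩))
    (fun i j hij a ha => hgg i j hij ((hD.dc hC (g i) (g j)).1 ⟨a, ha⟩))
  have hcK : ∀ h : FF N, h * xn N ^ m * h⁻¹ ∈ K := fun h => hKn.conj_mem _ hC.h2 h
  have hcc : ∀ h : FF N, (h * xn N * h⁻¹) ^ m = h * xn N ^ m * h⁻¹ := fun h => by
    rw [← MulAut.conj_apply, ← map_pow, MulAut.conj_apply]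
  have hω' : ∀ i, ∃ w : Gg p s, Jm ⟨g i * xn N ^ m * (g i)⁻¹, hcK (g i)⟩ =
      w * FreeGroup.of (Sum.inr i) * w⁻¹ := fun i => hJi i ⟨_, hcK (g i)⟩ rfl
  choose ω hω using hω'
  have hc0 : Jm ⟨g₀ * xn N ^ m * g₀⁻¹, hcK g₀⟩ = (cW p s)⁻¹ := hJ0 ⟨_, hcK g₀⟩ rfl
  -- the level in the surface group
  have hUn : (U.subgroupOf K).Normal := ⟨fun u hu k => hU.nor k (hKD k.2) u hu⟩
  have hUf := hU.fin
  set UG : Subgroup (Gg p s) := (U.subgroupOf K).map Jm with hUG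
  have hUGn : UG.Normal := hUn.map Jm hJs
  have hUGf : UG.FiniteIndex := by
    rw [Subgroup.finiteIndex_iff]
    refine ne_zero_of_dvd_ne_zero ?_ (Subgroup.index_map_dvd (U.subgroupOf K) hJs)
    exact Subgroup.FiniteIndex.index_ne_zero
  have hUGm : ∀ z : ↥K, Jm z ∈ UG ↔ (z : FF N) ∈ U := by
    intro z
    constructor
    · rintro ⟨u, hu, hz⟩
      have h1 : Jm (z * u⁻¹) = 1 := by rw [map_mul, map_inv, hz, mul_inv_cancel]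
      have h2 := hU.rel_le ((hJk _).1 h1)
      have h3 := U.mul_mem h2 hu
      simpa using h3
    · intro hz
      exact ⟨z, hz, rfl⟩
  have hkU : ∀ i, ¬ J i → FreeGroup.of (Sum.inr i) ∈ UG := by
    intro i hi
    have h1 : g i * xn N ^ m * (g i)⁻¹ ∈ U := by
      refine hU.kil (g i) ⟨hg₀ i, fun i' hi' => hgg i i' ?_⟩
      rintro rfl
      exact hi hi'
    have h2 : Jm ⟨g i * xn N ^ m * (g i)⁻¹, hcK (g i)⟩ ∈ UG := (hUGm _).2 h1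
    rw [hω i] at h2
    have h3 := hUGn.conj_mem _ h2 (ω i)⁻¹
    have h4 : (ω i)⁻¹ * (ω i * FreeGroup.of (Sum.inr i) * (ω i)⁻¹) * (ω i)⁻¹⁻¹ =
        FreeGroup.of (Sum.inr i) := by group
    rwa [h4] at h3
  obtain ⟨ΓG, hΓn, hΓf, hΓc, hΓk, hΓ⟩ := glue J (by omega) UG hUGn hUGf hkU
  -- the level in `K`
  set Γs : Subgroup (FF N) := (ΓG.comap Jm).map K.subtype with hΓs
  have hΓsm : ∀ z, z ∈ Γs ↔ ∃ hz : z ∈ K, Jm ⟨z, hz⟩ ∈ ΓG := by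
    intro z
    constructor
    · rintro ⟨y, hy, rfl⟩
      exact ⟨y.2, hy⟩
    · rintro ⟨hz, hy⟩
      exact ⟨⟨z, hz⟩, hy, rfl⟩
  have hΓsf : Γs.FiniteIndex := by
    rw [Subgroup.finiteIndex_iff, hΓs, Subgroup.index_map_subtype,
      Subgroup.index_comap_of_surjective _ hJs]
    exact mul_ne_zero hΓf.index_ne_zero hKf.index_ne_zero
  have hΓsn : ∀ k ∈ K, ∀ z ∈ Γs, k * z * k⁻¹ ∈ Γs := by
    intro k hk z hz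
    obtain ⟨hz1, hz2⟩ := (hΓsm z).1 hz
    refine (hΓsm _).2 ⟨K.mul_mem (K.mul_mem hk hz1) (K.inv_mem hk), ?_⟩
    have h1 := hΓn.conj_mem _ hz2 (Jm ⟨k, hk⟩)
    rwa [← map_mul, ← map_inv, ← map_mul] at h1
  have hΓsr : ∀ z ∈ Rel' e, z ∈ Γs := by
    intro z hz
    have h1 : z ∈ K := Rel'_le (fun j h => hKn.conj_mem _ (hC.h1 j) h) hz
    refine (hΓsm z).2 ⟨h1, ?_⟩
    rw [(hJk ⟨z, h1⟩).2 hz]
    exact ΓG.one_mem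
  have hface : ∀ g' h : FF N, g'⁻¹ * h ∈ D → g' * xn N ^ m * g'⁻¹ ∈ Γs →
      h * xn N ^ m * h⁻¹ ∈ Γs := by
    intro g' h h1 h2
    obtain ⟨a, ha⟩ := (hD _).1 h1
    have h3 := hΓsn _ (hKn.conj_mem _ ha g') _ h2
    have h4 : g' * (g'⁻¹ * h * xn N ^ a) * g'⁻¹ * (g' * xn N ^ m * g'⁻¹) *
        (g' * (g'⁻¹ * h * xn N ^ a) * g'⁻¹)⁻¹ = h * (xn N ^ a * xn N ^ m * (xn N ^ a)⁻¹) * h⁻¹ := by
      group
    have h5 : xn N ^ a * xn N ^ m * (xn N ^ a)⁻¹ = xn N ^ m := by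
      rw [mul_inv_eq_iff_eq_mul, ← zpow_natCast, ← zpow_add, ← zpow_add, add_comm]
    rw [h4, h5] at h3
    exact h3
  have hkil : ∀ h : FF N, (∀ i, J i → (g i)⁻¹ * h ∉ D) → h * xn N ^ m * h⁻¹ ∈ Γs := by
    intro h hh
    rcases hg h with h1 | ⟨i, h1⟩
    · refine hface g₀ h h1 ((hΓsm _).2 ⟨hcK g₀, ?_⟩)
      rw [hc0]
      exact ΓG.inv_mem hΓc
    · have h2 : ¬ J i := fun h3 => hh i h3 h1
      refine hface (g i) h h1 ((hΓsm _).2 ⟨hcK (g i), ?_⟩)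
      rw [hω i]
      exact hΓn.conj_mem _ (hΓk i h2) _
  obtain ⟨Γ₁, hΓ₁f, hΓ₁m⟩ := dcore D Γs (hD.fin hC) hΓsf
  have hΓ₁s : ∀ z ∈ Γ₁, z ∈ Γs := fun z hz => by
    have h1 := ((hΓ₁m z).1 hz).2 1 D.one_mem
    simpa using h1
  have hΓ₁K : Γ₁ ≤ K := fun z hz => ((hΓsm z).1 (hΓ₁s z hz)).1
  have hDn := hD.nor hC
  refine ⟨Γ₁, ⟨fun z hz => ((hΓ₁m z).1 hz).1, fun d hd u hu => ?_, hΓ₁f, fun j h => ?_,
    fun h hh => ?_⟩, hΓ₁K, ?_⟩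
  · obtain ⟨h1, h2⟩ := (hΓ₁m u).1 hu
    refine (hΓ₁m _).2 ⟨D.mul_mem (D.mul_mem hd h1) (D.inv_mem hd), fun d' hd' => ?_⟩
    have h3 := h2 (d' * d) (D.mul_mem hd' hd)
    have h4 : d' * d * u * (d' * d)⁻¹ = d' * (d * u * d⁻¹) * d'⁻¹ := by group
    rwa [h4] at h3
  · refine (hΓ₁m _).2 ⟨hKD (hKn.conj_mem _ (hC.h1 j) h), fun d _ => hΓsr _ ?_⟩
    have h0 : (Rel' e).Normal := Subgroup.normalClosure_normal
    exact h0.conj_mem _ (h0.conj_mem _ (Subgroup.subset_normalClosure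
      (s := Set.range fun j => FreeGroup.of j ^ e j) ⟨j, rfl⟩) h) d
  · refine (hΓ₁m _).2 ⟨hKD (hcK h), fun d hd => ?_⟩
    have h3 : d * (h * xn N ^ m * h⁻¹) * d⁻¹ = (d * h) * xn N ^ m * (d * h)⁻¹ := by group
    rw [h3]
    refine hkil _ fun i hi h4 => hh i hi ?_
    have h5 := D.mul_mem (D.inv_mem (hDn.conj_mem _ hd (g i)⁻¹)) h4
    have h6 : ((g i)⁻¹ * d * (g i)⁻¹⁻¹)⁻¹ * ((g i)⁻¹ * (d * h)) = (g i)⁻¹ * h := by group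
    rwa [h6] at h5
  -- the automorphisms
  intro f hf hfK hf0 hfJ hfD hfz
  obtain ⟨α, hα⟩ := restr K f hfK
  obtain ⟨φ, hφ⟩ := descend Jm hJs α fun z => by
    rw [hJk, hJk, hα]
    exact Rel'_iff hf e z
  have hφz : ∀ z, φ z * z⁻¹ ∈ ΓG := by
    intro z
    obtain ⟨y, rfl⟩ := hJs z
    obtain ⟨h1, h2⟩ := (hΓsm _).1 (hΓ₁s _ (hfz y (hKD y.2)))
    have h3 : (⟨f y * (y : FF N)⁻¹, h1⟩ : ↥K) = α y * y⁻¹ := by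
      ext
      rw [Subgroup.coe_mul, Subgroup.coe_inv, hα]
    rw [h3, map_mul, map_inv] at h2
    rw [hφ]
    exact h2
  have hw' : ∀ i, ∃ u : ↥K, α ⟨g i * xn N ^ m * (g i)⁻¹, hcK (g i)⟩ =
      u * ⟨g i * xn N ^ m * (g i)⁻¹, hcK (g i)⟩ * u⁻¹ ∧ (J i → Jm u ∈ ΓG) := by
    intro i
    by_cases hi : J i
    · obtain ⟨w, hw, hfw⟩ := hfJ i hi
      refine ⟨⟨w, hΓ₁K hw⟩, ?_, fun _ => ?_⟩
      · ext
        rw [hα]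
        change f (g i * xn N ^ m * (g i)⁻¹) = w * (g i * xn N ^ m * (g i)⁻¹) * w⁻¹
        rw [← hcc, map_pow, hfw, ← MulAut.conj_apply, ← map_pow, MulAut.conj_apply]
      · obtain ⟨_, h2⟩ := (hΓsm _).1 (hΓ₁s _ hw)
        exact h2
    · obtain ⟨w, hw, hfw⟩ := hfD i
      obtain ⟨a, ha⟩ := (hD.memg hC (g i) w).1 hw
      refine ⟨⟨_, ha⟩, ?_, fun h => absurd h hi⟩
      ext
      rw [hα]
      change f (g i * xn N ^ m * (g i)⁻¹) = (w * (g i * xn N * (g i)⁻¹) ^ a) *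
        (g i * xn N ^ m * (g i)⁻¹) * (w * (g i * xn N * (g i)⁻¹) ^ a)⁻¹
      rw [← hcc, map_pow, hfw, ← MulAut.conj_apply, ← map_pow, MulAut.conj_apply]
      set c := g i * xn N * (g i)⁻¹
      have h5 : c ^ a * c ^ m * (c ^ a)⁻¹ = c ^ m := by
        rw [mul_inv_eq_iff_eq_mul, ← zpow_natCast, ← zpow_add, ← zpow_add, add_comm]
      have h6 : w * c ^ a * c ^ m * (w * c ^ a)⁻¹ = w * (c ^ a * c ^ m * (c ^ a)⁻¹) * w⁻¹ := by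
        group
      rw [h6, h5]
  choose u hu1 hu2 using hw'
  have hφd : ∀ i, φ (FreeGroup.of (Sum.inr i)) = ((φ (ω i))⁻¹ * Jm (u i) * ω i) *
      FreeGroup.of (Sum.inr i) * ((φ (ω i))⁻¹ * Jm (u i) * ω i)⁻¹ := by
    intro i
    have h1 := hφ ⟨g i * xn N ^ m * (g i)⁻¹, hcK (g i)⟩
    rw [hu1 i, map_mul, map_mul, map_inv, hω i, map_mul, map_mul, map_inv] at h1
    have h2 : φ (FreeGroup.of (Sum.inr i)) = (φ (ω i))⁻¹ *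
        (φ (ω i) * φ (FreeGroup.of (Sum.inr i)) * (φ (ω i))⁻¹) * φ (ω i) := by group
    rw [h2, h1]
    group
  have hφc : φ (cW p s) = cW p s := by
    have h1 := hφ ⟨g₀ * xn N ^ m * g₀⁻¹, hcK g₀⟩
    have h2 : α ⟨g₀ * xn N ^ m * g₀⁻¹, hcK g₀⟩ = ⟨g₀ * xn N ^ m * g₀⁻¹, hcK g₀⟩ := by
      ext
      rw [hα]
      change f (g₀ * xn N ^ m * g₀⁻¹) = g₀ * xn N ^ m * g₀⁻¹
      rw [← hcc, map_pow, hf0]
    rw [h2, hc0, map_inv] at h1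
    exact inv_injective h1
  obtain ⟨k, hk⟩ := hΓ φ (fun i => (φ (ω i))⁻¹ * Jm (u i) * ω i) hφc hφd (fun i hi => by
    have h1 := hΓn.conj_mem _ (hu2 i hi) (φ (ω i))⁻¹
    have h2 := hΓn.conj_mem _ (ΓG.inv_mem (hφz (ω i))) (φ (ω i))⁻¹
    have h3 := ΓG.mul_mem h1 h2
    have h4 : (φ (ω i))⁻¹ * Jm (u i) * (φ (ω i))⁻¹⁻¹ *
        ((φ (ω i))⁻¹ * (φ (ω i) * (ω i)⁻¹)⁻¹ * (φ (ω i))⁻¹⁻¹) =
        (φ (ω i))⁻¹ * Jm (u i) * ω i := by group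
    rwa [h4] at h3) hφz
  refine ⟨(m : ℤ) * (-k), ?_⟩
  set C := g₀ * xn N * g₀⁻¹ with hCd
  -- on `K`
  have hkK : ∀ y ∈ K, f y * (C ^ ((m : ℤ) * (-k)) * y * (C ^ ((m : ℤ) * (-k)))⁻¹)⁻¹ ∈ U := by
    intro y hy
    have h1 := hk (Jm ⟨y, hy⟩)
    have hCm : C ^ m = g₀ * xn N ^ m * g₀⁻¹ := hcc g₀
    have h2 : (cW p s) ^ k = Jm (⟨g₀ * xn N ^ m * g₀⁻¹, hcK g₀⟩ ^ (-k)) := by
      rw [map_zpow, hc0, zpow_neg, inv_zpow, inv_inv]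
    rw [h2, hφ, ← map_mul, ← map_inv, ← map_mul, ← map_inv, ← map_mul, hUGm] at h1
    have h3 : ((α ⟨y, hy⟩ * ((⟨g₀ * xn N ^ m * g₀⁻¹, hcK g₀⟩ : ↥K) ^ (-k) * ⟨y, hy⟩ *
        ((⟨g₀ * xn N ^ m * g₀⁻¹, hcK g₀⟩ : ↥K) ^ (-k))⁻¹)⁻¹ : ↥K) : FF N) =
        f y * ((g₀ * xn N ^ m * g₀⁻¹) ^ (-k) * y * ((g₀ * xn N ^ m * g₀⁻¹) ^ (-k))⁻¹)⁻¹ := by
      simp only [Subgroup.coe_mul, Subgroup.coe_inv, Subgroup.coe_zpow, hα]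
    rw [h3, ← hCm] at h1
    rw [zpow_mul, zpow_natCast]
    exact h1
  intro y hy
  obtain ⟨a, ha⟩ := (hD.memg hC g₀ y).1 hy
  rw [← hCd] at ha
  have h1 := hkK _ ha
  rw [map_mul, map_zpow, hf0] at h1
  set b : ℤ := (m : ℤ) * (-k)
  have h2 : f y * C ^ a * (C ^ b * (y * C ^ a) * (C ^ b)⁻¹)⁻¹ =
      f y * (C ^ b * y * (C ^ a * (C ^ b)⁻¹ * (C ^ a)⁻¹))⁻¹ := by group
  have h3 : C ^ a * (C ^ b)⁻¹ * (C ^ a)⁻¹ = (C ^ b)⁻¹ := by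
    rw [mul_inv_eq_iff_eq_mul, ← zpow_neg, ← zpow_add, ← zpow_add, add_comm]
  rw [h2, h3] at h1
  exact h1

end Pool.MP_59b15d_al.Sym
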