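import Mathlib
import Pool.Agent.H.MP_59b15d_al.h77s.Ax

set_option autoImplicit false

namespace Pool.MP_59b15d_al.Sym

open Fin.NatCast Fin.CommRing

variable {N : ℕ}

theorem end_mul {M : Type*} [Monoid M] (f g : Monoid.End M) (x : M) : (f * g) x = f (g x) := rfl

theorem prod_per : (List.ofFn (per : Fin (N + 1) → FF N)).prod = 1 := by
  rw [List.ofFn_succ', List.concat_eq_append, List.prod_append, List.prod_singleton, per_last, xn]
  simp only [per_castSucc]
  rw [mul_inv_cancel]

/-- The rotation. -/
def rotH (N : ℕ) : Monoid.End (FF N) := FreeGroup.lift fun j : Fin N => per j.succ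

theorem rotH_per (j : Fin (N + 1)) : rotH N (per j) = per (j + 1) := by
  refine Fin.lastCases ?_ (fun i => ?_) j
  · rw [Fin.last_add_one, per_last, xn, map_inv, map_list_prod, List.map_ofFn]
    have h1 : (⇑(rotH N) ∘ fun j : Fin N => FreeGroup.of j) = fun j : Fin N => per j.succ := by
      ext1 j
      exact FreeGroup.lift_apply_of
    rw [h1]
    have h2 := prod_per (N := N)
    rw [List.ofFn_succ, List.prod_cons] at h2
    exact (eq_inv_of_mul_eq_one_left h2).symm
  · rw [Fin.coeSucc_eq_succ, per_castSucc]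
    exact FreeGroup.lift_apply_of

theorem rotH_pow (k : ℕ) (j : Fin (N + 1)) : (rotH N ^ k) (per j) = per (j + (k : Fin (N + 1))) := by
  induction k generalizing j with
  | zero => simp
  | succ k ih =>
    rw [pow_succ, end_mul, rotH_per, ih]
    congr 1
    push_cast
    ring

theorem rotH_one : rotH N ^ (N + 1) = 1 := by
  refine FreeGroup.ext_hom _ _ fun j => ?_
  have h := rotH_pow (N + 1) (j.castSucc)
  rw [Fin.natCast_self, add_zero, per_castSucc] at h
  exact h

theorem exists_rotc (c : Fin (N + 1)) : ∃ σ : MulAut (FF N), ∀ j, σ (per j) = per (j + c) := by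
  have h1 : rotH N * rotH N ^ N = 1 := by rw [← pow_succ', rotH_one]
  have h2 : rotH N ^ N * rotH N = 1 := by rw [← pow_succ, rotH_one]
  set σ : MulAut (FF N) := MonoidHom.toMulEquiv (rotH N) (rotH N ^ N) h2 h1 with hσ
  have h3 : ∀ z, σ z = rotH N z := fun z => rfl
  have h4 : ∀ (k : ℕ) (z : FF N), (σ ^ k) z = (rotH N ^ k) z := by
    intro k
    induction k with
    | zero => exact fun z => rfl
    | succ k ih =>
      intro z
      rw [pow_succ, pow_succ, MulAut.mul_apply, end_mul, ih, h3]
  refine ⟨σ ^ (c : ℕ), fun j => ?_⟩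
  rw [h4, rotH_pow, Fin.cast_val_eq_self]

end Pool.MP_59b15d_al.Sym
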