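import Mathlib
import Pool.Agent.H.MP_59b15d_al.sym.Step
import Pool.Agent.H.MP_59b15d_al.sym.G0
import Pool.Agent.H.MP_59b15d_al.h76m.Hb
import Pool.Agent.H.MP_59b15d_al.h76m.Hd
import Pool.Agent.H.MP_59b15d_al.h76r.Sd

set_option autoImplicit false

namespace Pool.MP_59b15d_al.Sym

variable {N : ℕ}

/-- The pure automorphisms of the punctured sphere lifting to the covering given by `K`. -/
def PK (K : Subgroup (FF N)) : Subgroup (MulAut (FF N)) where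
  carrier := {f | f ∈ CP N ∧ ∀ z, f z ∈ K ↔ z ∈ K}
  mul_mem' := by
    rintro f g ⟨hf, hf'⟩ ⟨hg, hg'⟩
    exact ⟨(CP N).mul_mem hf hg, fun z => (hf' (g z)).trans (hg' z)⟩
  one_mem' := ⟨(CP N).one_mem, fun z => Iff.rfl⟩
  inv_mem' := by
    rintro f ⟨hf, hf'⟩
    refine ⟨(CP N).inv_mem hf, fun z => ?_⟩
    have h1 := hf' (f⁻¹ z)
    have h2 : f (f⁻¹ z) = z := by
      change (f * f⁻¹) z = z
      rw [mul_inv_cancel]
      rfl
    rw [h2] at h1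
    exact h1.symm

/-- `PK K` has finite index in `CP N`. -/
theorem PK_fi (K : Subgroup (FF N)) (hf : K.FiniteIndex) : (PK K).relIndex (CP N) ≠ 0 := by
  obtain ⟨W, hW, hWf, hWle⟩ := H76.exists_char_le K hf
  have h1 : H76.trivMod W ⊓ CP N ≤ PK K := by
    rintro f ⟨hf1, hf2⟩
    refine ⟨hf2, fun z => ?_⟩
    have h2 := hWle (hf1 z)
    constructor
    · intro h3
      have h4 := K.mul_mem (K.inv_mem h2) h3
      simpa using h4
    · intro h3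
      have h4 := K.mul_mem h2 h3
      simpa using h4
  have h2 : (H76.trivMod W).FiniteIndex := H76.trivMod_finiteIndex hW hWf
  have h3 : (H76.trivMod W ⊓ CP N).relIndex (CP N) ≠ 0 := by
    rw [Subgroup.inf_relIndex_right]
    have := Subgroup.isFiniteRelIndex_of_finiteIndex (H := H76.trivMod W) (K := CP N)
    exact Subgroup.relIndex_ne_zero
  exact fun h4 => h3 (Subgroup.relIndex_eq_zero_of_le_left h1 h4)

theorem faith_use {G : Type*} [Group G] {V U : Subgroup G} (hV : V.Normal) (hU : U.Normal)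
    (h : ∀ d : G, (∀ v ∈ V, d * v * d⁻¹ * v⁻¹ ∈ U) → d ∈ V) (f : MulAut G)
    (hf : ∀ v ∈ V, f v * v⁻¹ ∈ U) (y : G) : f y * y⁻¹ ∈ V := by
  have hd := h (y⁻¹ * f y) fun v hv => by
    have h2 := hf v hv
    have h3 := hf _ (hV.conj_mem _ hv y)
    rw [map_mul, map_mul, map_inv] at h3
    have h4 := hU.conj_mem _ (U.mul_mem (hU.conj_mem _ (U.inv_mem h2) (f y)) h3) y⁻¹
    have h5 : y⁻¹ * (f y * (f v * v⁻¹)⁻¹ * (f y)⁻¹ * (f y * f v * (f y)⁻¹ *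
        (y * v * y⁻¹)⁻¹)) * y⁻¹⁻¹ = y⁻¹ * f y * v * (y⁻¹ * f y)⁻¹ * v⁻¹ := by group
    rwa [h5] at h4
  have h6 := hV.conj_mem _ hd y
  have h7 : y * (y⁻¹ * f y) * y⁻¹ = f y * y⁻¹ := by group
  rwa [h7] at h6

/-- (MAIN), for the kernel `K`. -/
theorem mainK (hN : 4 ≤ N) (K : Subgroup (FF N)) (hKn : K.Normal) (hkf : K.FiniteIndex)
    (e : Fin (N + 1) → ℕ) (he2 : ∀ j, 2 ≤ e j) (heK : ∀ j (k : ℕ), per j ^ k ∈ K ↔ e j ∣ k)
    {G : Type*} [Group G] (q : ↥K →* G) (hq : Function.Surjective q)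
    (hk : ∀ z : ↥K, q z = 1 ↔ (z : FF N) ∈ Rel e)
    (H : Subgroup (MulAut (FF N))) (hH : H.relIndex (PK K) ≠ 0)
    (hi : ∀ z ∈ K, MulAut.conj z ∈ H) :
    ∃ Γ : Subgroup G, Γ.Characteristic ∧ Γ.FiniteIndex ∧
      ∀ f ∈ PK K, ∀ φ : MulAut G, (∀ z z' : ↥K, (z' : FF N) = f z → φ (q z) = q z') →
        Pool.MP_59b15d_al.H76.InnMod Γ φ → f ∈ H := by
  have hek : ∀ j, per j ^ e j ∈ K := fun j => (heK j _).2 dvd_rfl
  have heo : ∀ j (k : ℕ), per j ^ k ∈ K → e j ∣ k := fun j k h => (heK j k).1 h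
  have hRk : Rel e ≤ K := (rel_le_iff e _ inferInstance).2 hek
  -- 1, 2
  obtain ⟨U₀, hU₀n, hU₀f, hU₀⟩ := g0 (H ⊓ PK K) (by
    have h2 : (H ⊓ PK K).relIndex (PK K) ≠ 0 := by
      rwa [Subgroup.inf_relIndex_right]
    exact Subgroup.relIndex_ne_zero_trans h2 (PK_fi K hkf))
  -- 3
  obtain ⟨Γ₁, hΓ₁n, hΓ₁f, hΓ₁R, hΓ₁⟩ := steps hN e he2 U₀ hU₀n hU₀f K inferInstance hkf hRk
  have hΓ₁R' := (rel_le_iff e _ hΓ₁n).1 hΓ₁R
  -- 4
  obtain ⟨Uf, hUn, hUf, hUV, p1, p2, hU⟩ := faithA hN (fun j => e j.castSucc) (fun j => he2 _)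
    (e (Fin.last N)) (he2 _) (K ⊓ Γ₁) inferInstance inferInstance
    (fun j => by
      rw [← per_castSucc]
      exact ⟨hek _, hΓ₁R' _⟩)
    (by
      rw [← per_last]
      exact ⟨hek _, hΓ₁R' _⟩)
    (fun j k h => by
      rw [← per_castSucc] at h
      exact heo _ _ h.1)
    (fun k h => by
      rw [← per_last] at h
      exact heo _ _ h.1)
  have hUR : Rel e ≤ Uf := (rel_le_iff e _ hUn).2 fun j => by
    refine Fin.lastCases ?_ (fun j => ?_) j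
    · rw [per_last]
      exact p2
    · rw [per_castSucc]
      exact p1 j
  -- 5
  have hUk : Uf ≤ K := hUV.trans inf_le_left
  set Γ' : Subgroup G := (Uf.subgroupOf K).map q with hΓ'
  have hΓ'f : Γ'.FiniteIndex := H76.map_fi q hq inferInstance
  have hΓ'm : ∀ z : ↥K, q z ∈ Γ' → (z : FF N) ∈ Uf := by
    rintro z ⟨u, hu, hz⟩
    have h2 : q (z * u⁻¹) = 1 := by rw [map_mul, map_inv, hz, mul_inv_cancel]
    have h3 := Uf.mul_mem (hUR ((hk _).1 h2)) hu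
    simpa using h3
  have hfg : Group.FG ↥K := inferInstance
  have hGfg : Group.FG G := Group.fg_of_surjective hq
  obtain ⟨Γ, hΓc, hΓf, hΓle⟩ := H76.exists_char_le Γ' hΓ'f
  refine ⟨Γ, hΓc, hΓf, fun f hf φ hφ hin => ?_⟩
  -- 6
  obtain ⟨h, hh⟩ := hin
  obtain ⟨g, rfl⟩ := hq h
  have hΓn : Γ.Normal := inferInstance
  set f1 : MulAut (FF N) := MulAut.conj (g : FF N)⁻¹ * f with hf1
  have hf1z : ∀ z, f1 z = (g : FF N)⁻¹ * f z * (g : FF N)⁻¹⁻¹ := fun z => rfl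
  have hf1k : ∀ z ∈ K, f1 z * z⁻¹ ∈ Uf := by
    intro z hz
    have hfz : f z ∈ K := (hf.2 z).2 hz
    have h2 := hφ ⟨z, hz⟩ ⟨f z, hfz⟩ rfl
    have h3 := hΓn.conj_mem _ (hh (q ⟨z, hz⟩)) (q g)⁻¹
    rw [h2] at h3
    have h4 : (q g)⁻¹ * (q ⟨f z, hfz⟩ * (q g * q ⟨z, hz⟩ * (q g)⁻¹)⁻¹) * (q g)⁻¹⁻¹ =
        q (g⁻¹ * ⟨f z, hfz⟩ * g⁻¹⁻¹ * (⟨z, hz⟩ : ↥K)⁻¹) := by
      simp only [map_mul, map_inv]
      group
    rw [h4] at h3
    have h5 := hΓ'm _ (hΓle h3)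
    exact h5
  have hf1V := faith_use (V := K ⊓ Γ₁) (U := Uf) inferInstance hUn hU f1
    (fun v hv => hf1k v hv.1)
  have hf1CP : f1 ∈ CP N := (CP N).mul_mem (conj_mem_CP _) hf.1
  obtain ⟨v, hv, hfv⟩ := hΓ₁ f1 hf1CP fun z => (hf1V z).2
  have hf2 := hU₀ (MulAut.conj v⁻¹ * f1) ((CP N).mul_mem (conj_mem_CP _) hf1CP) fun z => by
    have h2 := hU₀n.conj_mem _ (hfv z (Subgroup.mem_top _)) v⁻¹
    have h3 : v⁻¹ * (f1 z * (v * z * v⁻¹)⁻¹) * v⁻¹⁻¹ = v⁻¹ * f1 z * v⁻¹⁻¹ * z⁻¹ := by group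
    rw [h3] at h2
    exact h2
  have h4 : f = MulAut.conj (g : FF N) * (MulAut.conj v * (MulAut.conj v⁻¹ * f1)) := by
    rw [hf1, ← mul_assoc (MulAut.conj v), ← map_mul, mul_inv_cancel, map_one, one_mul,
      ← mul_assoc, ← map_mul, mul_inv_cancel, map_one, one_mul]
  rw [h4]
  exact H.mul_mem (hi _ g.2) (H.mul_mem (hi _ hv) hf2.1)

end Pool.MP_59b15d_al.Sym
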