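import Mathlib
import Pool.Agent.H.MP_59b15d_al.h77s.MainK
import Pool.Agent.H.MP_59b15d_al.h77s.Gu
import Pool.Agent.H.MP_59b15d_al.sym.Mf
import Pool.Agent.H.MP_59b15d_al.h76r.Sd

set_option autoImplicit false

namespace Pool.MP_59b15d_al.Sym

open Pool.MP_59b15d_al.H76

/-- The bound from the genus formula. -/
theorem bound {N : ℕ} (hN : 4 ≤ N) (K : Subgroup (FF N)) (hKn : K.Normal) (hkf : K.FiniteIndex)
    (e : Fin (N + 1) → ℕ) (he2 : ∀ j, 2 ≤ e j) (heK : ∀ j (k : ℕ), per j ^ k ∈ K ↔ e j ∣ k)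
    {G : Type*} [Group G] (q : ↥K →* G) (hq : Function.Surjective q)
    (hk : ∀ z : ↥K, q z = 1 ↔ (z : FF N) ∈ Rel e) {p : ℕ} {a b : Fin p → G} (h : StdGen a b) :
    N ≤ 4 * p ∧ K.index ≤ 4 * p := by
  have he : e = (Fin.lastCases (e (Fin.last N)) (fun j : Fin N => e j.castSucc) :
      Fin (N + 1) → ℕ) := by
    funext j
    refine Fin.lastCases ?_ (fun j => ?_) j
    · simp
    · simp
  have h1 : ∀ j : Fin N, FreeGroup.of j ^ e j.castSucc ∈ K := fun j => by
    rw [← per_castSucc]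
    exact (heK _ _).2 dvd_rfl
  have h2 : xn N ^ e (Fin.last N) ∈ K := by
    rw [← per_last]
    exact (heK _ _).2 dvd_rfl
  obtain ⟨p', a', b', h', hp'⟩ := mf_closed hN (fun j => e j.castSucc) (fun j => he2 _) K hKn hkf h1
    (fun j k hk => by
      rw [← per_castSucc] at hk
      exact (heK _ _).1 hk) (e (Fin.last N)) (he2 _) h2
    (fun k hk => by
      rw [← per_last] at hk
      exact (heK _ _).1 hk) q hq (fun z => by
      rw [hk, he]
      simp only [Fin.lastCases_last, Fin.lastCases_castSucc])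
  have hpp := genus_unique h h'
  subst hpp
  have h3 : (∑ j : Fin N, (1 / (e j.castSucc : ℕ) : ℚ)) ≤ N * (1 / 2) := by
    calc (∑ j : Fin N, (1 / (e j.castSucc : ℕ) : ℚ)) ≤ ∑ j : Fin N, (1 / 2 : ℚ) := by
          refine Finset.sum_le_sum fun j _ => ?_
          have : (2 : ℚ) ≤ (e j.castSucc : ℕ) := by exact_mod_cast he2 _
          exact one_div_le_one_div_of_le (by norm_num) this
      _ = N * (1 / 2) := by simp
  have h4 : (1 / (e (Fin.last N) : ℕ) : ℚ) ≤ 1 / 2 := by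
    have : (2 : ℚ) ≤ (e (Fin.last N) : ℕ) := by exact_mod_cast he2 _
    exact one_div_le_one_div_of_le (by norm_num) this
  have h5 : (1 : ℚ) ≤ K.index := by
    have := hkf.index_ne_zero
    exact_mod_cast Nat.one_le_iff_ne_zero.2 this
  have h6 : (K.index : ℚ) * ((N - 3) / 2) ≤ 2 * p - 2 := by
    rw [hp']
    refine mul_le_mul_of_nonneg_left ?_ (by linarith)
    linarith
  have h7 : (4 : ℚ) ≤ N := by exact_mod_cast hN
  constructor
  · have h8 : ((N : ℚ) - 3) / 2 ≤ 2 * p - 2 := by nlinarith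
    have h9 : (N : ℚ) ≤ 4 * p := by linarith
    exact_mod_cast h9
  · have h8 : (K.index : ℚ) * (1 / 2) ≤ 2 * p - 2 := by nlinarith
    have h9 : (K.index : ℚ) ≤ 4 * p := by linarith
    exact_mod_cast h9

/-- Finitely many `(N, K)`. -/
theorem finite_NK (B : ℕ) : Finite {x : Σ N : ℕ, Subgroup (FF N) // x.2.Normal ∧
    x.2.FiniteIndex ∧ x.1 ≤ B ∧ x.2.index ≤ B} := by
  have hfin : ∀ (N k : ℕ), Finite (FF N →* Equiv.Perm (Fin k)) := fun N k => H76.finite_hom
  set T := Σ N : Fin (B + 1), Σ k : Fin (B + 1), (FF (N : ℕ) →* Equiv.Perm (Fin (k : ℕ))) with hT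
  have : Finite T := inferInstance
  set Φ : T → Σ N : ℕ, Subgroup (FF N) := fun t => ⟨(t.1 : ℕ), t.2.2.ker⟩ with hΦ
  have hr : (Set.range Φ).Finite := Set.finite_range Φ
  refine Set.Finite.subset hr ?_
  rintro ⟨N, K⟩ ⟨h1, h2, h3, h4⟩
  have hfq : Finite (FF N ⧸ K) := Subgroup.finite_quotient_of_finiteIndex
  have hc : Nat.card (FF N ⧸ K) = K.index := rfl
  obtain ⟨E⟩ : Nonempty ((FF N ⧸ K) ≃ Fin K.index) := by
    have := Finite.equivFin (FF N ⧸ K)
    rw [hc] at this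
    exact ⟨this⟩
  have h3' : N < B + 1 := by
    change N ≤ B at h3
    omega
  have h4' : K.index < B + 1 := by
    change K.index ≤ B at h4
    omega
  refine ⟨⟨⟨N, h3'⟩, ⟨K.index, h4'⟩, (E.permCongrHom.toMonoidHom.comp
    (MulAction.toPermHom (FF N) (FF N ⧸ K)))⟩, ?_⟩
  simp only [hΦ]
  congr 1
  ext z
  rw [MonoidHom.mem_ker, MonoidHom.comp_apply]
  change E.permCongrHom (MulAction.toPermHom (FF N) (FF N ⧸ K) z) = 1 ↔ _
  rw [map_eq_one_iff _ E.permCongrHom.injective]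
  rw [← MonoidHom.mem_ker, ← Subgroup.normalCore_eq_ker, Subgroup.normalCore_eq_self]

end Pool.MP_59b15d_al.Sym
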