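import Mathlib
import Pool.Agent.H.MP_59b15d_al.h77s.Uni
import Pool.Agent.H.MP_59b15d_al.sym.FullK
import Pool.Agent.H.MP_59b15d_al.h76r.Sd

set_option autoImplicit false

namespace Pool.MP_59b15d_al.Sym

open Pool.MP_59b15d_al.H76

theorem same_ker {K G : Type*} [Group K] [Group G] (q q' : K →* G) (hq : Function.Surjective q)
    (hq' : Function.Surjective q') (h : ∀ z, q z = 1 ↔ q' z = 1) :
    ∃ φ : MulAut G, ∀ z, φ (q z) = q' z := by
  have h1 : q.ker ≤ q'.ker := fun z hz => (h z).1 hz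
  have h2 : q'.ker ≤ q.ker := fun z hz => (h z).2 hz
  have h3 : ∀ z, q.liftOfSurjective hq ⟨q', h1⟩ (q z) = q' z := fun z =>
    MonoidHom.liftOfRightInverse_comp_apply q (Function.surjInv hq) _ ⟨q', h1⟩ z
  have h4 : ∀ z, q'.liftOfSurjective hq' ⟨q, h2⟩ (q' z) = q z := fun z =>
    MonoidHom.liftOfRightInverse_comp_apply q' (Function.surjInv hq') _ ⟨q, h2⟩ z
  refine ⟨MonoidHom.toMulEquiv (q.liftOfSurjective hq ⟨q', h1⟩)
    (q'.liftOfSurjective hq' ⟨q, h2⟩) ?_ ?_, h3⟩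
  · ext y
    obtain ⟨z, rfl⟩ := hq y
    rw [MonoidHom.comp_apply, h3, h4, MonoidHom.id_apply]
  · ext y
    obtain ⟨z, rfl⟩ := hq' y
    rw [MonoidHom.comp_apply, h4, h3, MonoidHom.id_apply]

/-- `K` is a normal subgroup of finite index, `e j ≥ 2` is the order of `x_j` modulo `K`, and `q`
identifies `G` with `K / R_e`: the group `G` is the fundamental group of the closed surface with an
action of `F / K`, whose quotient is a sphere with `N + 1` branch points of orders `e j`. -/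
structure IsCov {N : ℕ} {G : Type*} [Group G] (K : Subgroup (FF N)) (e : Fin (N + 1) → ℕ)
    (q : ↥K →* G) : Prop where
  nor : K.Normal
  fin : K.FiniteIndex
  two : ∀ j, 2 ≤ e j
  ord : ∀ (j : Fin (N + 1)) (k : ℕ), per j ^ k ∈ K ↔ e j ∣ k
  sur : Function.Surjective q
  ker : ∀ z : ↥K, q z = 1 ↔ (z : FF N) ∈ Rel e

theorem IsCov.e_eq {N : ℕ} {G G' : Type*} [Group G] [Group G'] {K : Subgroup (FF N)}
    {e e' : Fin (N + 1) → ℕ} {q : ↥K →* G} {q' : ↥K →* G'} (h : IsCov K e q)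
    (h' : IsCov K e' q') : e = e' := by
  funext j
  exact Nat.dvd_antisymm ((h.ord j _).1 ((h'.ord j _).2 dvd_rfl))
    ((h'.ord j _).1 ((h.ord j _).2 dvd_rfl))

theorem transfer {N : ℕ} {G : Type*} [Group G] {K : Subgroup (FF N)} {e e₀ : Fin (N + 1) → ℕ}
    {q q₀ : ↥K →* G} (h : IsCov K e q) (h₀ : IsCov K e₀ q₀) :
    ∃ α : MulAut G, ∀ φ ∈ SS K q, α⁻¹ * φ * α ∈ SS K q₀ := by
  have he := h.e_eq h₀
  subst he
  obtain ⟨α, hα⟩ := same_ker q₀ q h₀.sur h.sur (fun z => by rw [h₀.ker, h.ker])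
  refine ⟨α, ?_⟩
  rintro φ ⟨f, hf, hφ⟩
  refine ⟨f, hf, fun z z' hz => ?_⟩
  change α⁻¹ (φ (α (q₀ z))) = q₀ z'
  rw [hα, hφ z z' hz, ← hα]
  exact MulAut.inv_apply_self _ _ _

/-- The uniform version. -/
theorem uniform {p : ℕ} {G : Type*} [Group G] {a b : Fin p → G} (h : StdGen a b)
    (H : Subgroup (MulAut G)) (hH : H.FiniteIndex) (hi : ∀ x : G, MulAut.conj x ∈ H) :
    ∃ Γ : Subgroup G, Γ.Characteristic ∧ Γ.FiniteIndex ∧
      ∀ (N : ℕ) (K : Subgroup (FF N)) (e : Fin (N + 1) → ℕ) (q : ↥K →* G),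
        4 ≤ N → IsCov K e q → ∀ φ ∈ SS K q, InnMod Γ φ → φ ∈ H := by
  classical
  set H' := H.normalCore with hH'
  have hH'f : H'.FiniteIndex := inferInstance
  have hH'i : ∀ x : G, MulAut.conj x ∈ H' := by
    intro x ψ
    have h1 : ψ * MulAut.conj x * ψ⁻¹ = MulAut.conj (ψ x) := by
      ext y
      change ψ (x * ψ⁻¹ y * x⁻¹) = ψ x * y * (ψ x)⁻¹
      rw [map_mul, map_mul, map_inv, MulAut.apply_inv_self]
    rw [h1]
    exact hi _
  set T := {x : Σ N : ℕ, Subgroup (FF N) // x.2.Normal ∧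
    x.2.FiniteIndex ∧ x.1 ≤ 4 * p ∧ x.2.index ≤ 4 * p} with hT
  have hTf : Finite T := finite_NK (4 * p)
  have key : ∀ x : T, ∃ Γ : Subgroup G, Γ.Characteristic ∧ Γ.FiniteIndex ∧
      ∀ (e : Fin (x.1.1 + 1) → ℕ) (q : ↥x.1.2 →* G),
        4 ≤ x.1.1 → IsCov x.1.2 e q → ∀ φ ∈ SS x.1.2 q, InnMod Γ φ → φ ∈ H' := by
    rintro ⟨⟨N, K⟩, hK⟩
    by_cases hex : ∃ (e : Fin (N + 1) → ℕ) (q : ↥K →* G), 4 ≤ N ∧ IsCov K e q
    · obtain ⟨e₀, q₀, hN, hc₀⟩ := hex
      obtain ⟨Γ, hc, hf, hΓ⟩ := main_symK hN hc₀.nor hc₀.fin hc₀.two hc₀.ord hc₀.sur hc₀.ker H' (by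
        have := Subgroup.isFiniteRelIndex_of_finiteIndex (H := H') (K := SS K q₀)
        exact Subgroup.relIndex_ne_zero) hH'i
      refine ⟨Γ, hc, hf, fun e q _ hcov φ hφ hin => ?_⟩
      obtain ⟨α, hα⟩ := transfer hcov hc₀
      have h1 := hΓ _ (hα φ hφ) (by
        obtain ⟨g, hg⟩ := hin
        refine ⟨α⁻¹ g, fun x => ?_⟩
        have h2 := apply_mem_of_char hc α⁻¹ (hg (α x))
        rw [map_mul, map_inv, map_mul, map_mul, map_inv, MulAut.inv_apply_self] at h2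
        exact h2)
      have h2 : H'.Normal := inferInstance
      have h3 := h2.conj_mem _ h1 α
      have h4 : α * (α⁻¹ * φ * α) * α⁻¹ = φ := by group
      rwa [h4] at h3
    · refine ⟨⊤, inferInstance, inferInstance, fun e q hN hcov => ?_⟩
      exact absurd ⟨e, q, hN, hcov⟩ hex
  choose Γ hΓc hΓf hΓ using key
  refine ⟨⨅ x, Γ x, ?_, Subgroup.finiteIndex_iInf hΓf, fun N K e q hN hcov φ hφ hin => ?_⟩
  · rw [Subgroup.characteristic_iff_le_comap]
    intro ψ x hx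
    rw [Subgroup.mem_comap, Subgroup.mem_iInf]
    intro t
    exact apply_mem_of_char (hΓc t) ψ (Subgroup.mem_iInf.1 hx t)
  · have hb := bound hN K hcov.nor hcov.fin e hcov.two hcov.ord q hcov.sur hcov.ker h
    have h1 := hΓ ⟨⟨N, K⟩, hcov.nor, hcov.fin, hb.1, hb.2⟩ e q hN hcov φ hφ
      (innMod_mono (iInf_le Γ _) hin)
    exact H.normalCore_le h1

/-- `G` is a closed surface group, and the genus formula. -/
theorem cov_genus {N : ℕ} (hN : 4 ≤ N) {G : Type*} [Group G] {K : Subgroup (FF N)}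
    {e : Fin (N + 1) → ℕ} {q : ↥K →* G} (h : IsCov K e q) :
    ∃ (p : ℕ) (a b : Fin p → G), StdGen a b ∧ (2 * p - 2 : ℚ) =
      K.index * (N - 1 - ∑ j : Fin (N + 1), (1 / e j : ℚ)) := by
  have he : e = (Fin.lastCases (e (Fin.last N)) (fun j : Fin N => e j.castSucc) :
      Fin (N + 1) → ℕ) := by
    funext j
    refine Fin.lastCases ?_ (fun j => ?_) j
    · simp
    · simp
  obtain ⟨p, a, b, h', hp⟩ := mf_closed hN (fun j => e j.castSucc) (fun j => h.two _)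
    K h.nor h.fin (fun j => by
      rw [← per_castSucc]
      exact (h.ord _ _).2 dvd_rfl)
    (fun j k hk => by
      rw [← per_castSucc] at hk
      exact (h.ord _ _).1 hk) (e (Fin.last N)) (h.two _) (by
      rw [← per_last]
      exact (h.ord _ _).2 dvd_rfl)
    (fun k hk => by
      rw [← per_last] at hk
      exact (h.ord _ _).1 hk) q h.sur (fun z => by
      rw [h.ker, he]
      simp only [Fin.lastCases_last, Fin.lastCases_castSucc])
  refine ⟨p, a, b, h', ?_⟩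
  rw [hp, Fin.sum_univ_castSucc]
  ring

end Pool.MP_59b15d_al.Sym
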